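import Pool.Agent.Helper79.OE.GoalsD

/-!
Project OE (MP_fc0446_an), packet EQM: the update is equivariant.
-/

namespace Pool.Agent.Helper16.OE

open Pool.Agent.Helper73.OE Pool.Agent.Helper79.OE

theorem ite_cg {α : Type*} {p q : Prop} {_ : Decidable p} {_ : Decidable q} {a b c d : α} (h : p ↔ q)
    (h1 : a = c) (h2 : b = d) : ite p a b = ite q c d := by
  subst h1 h2
  by_cases hp : p
  · rw [if_pos hp, if_pos (h.1 hp)]
  · rw [if_neg hp, if_neg (fun x => hp (h.2 x))]

theorem choose_cg {α : Type*} {p q : α → Prop} (h : p = q) (hp : ∃ i, p i) (hq : ∃ i, q i) :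
    hp.choose = hq.choose := by
  subst h
  rfl

section

variable {H S L : Type} [Group H] (X : Sys H S L) (g : H)

theorem actC_apply (f : Cfg H S L) (v : H) : Sys.actC g f (g * v) = f v := by
  unfold Sys.actC
  rw [inv_mul_cancel_left]

theorem shE_apply (O : Edges H S) (v : H) (s : S) : shE g O (g * v) s = O v s := by
  unfold shE
  rw [inv_mul_cancel_left]

theorem long_sh (O : Edges H S) (f : Cfg H S L) (r : ℕ) :
    ∀ (v : H) (p : S) (y : L), X.Long (shE g O) (Sys.actC g f) r (g * v) p y =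
      X.Long O f r v p y := by
  induction r with
  | zero => intro v p y; rfl
  | succ r ih =>
    intro v p y
    unfold Sys.Long
    rw [actC_apply, shE_apply, X.nb_mul, ih]

theorem flipP_sh (O : Edges H S) (f : Cfg H S L) (z : H) (n : ℕ) :
    ∀ (v : H) (p : S) (y : L), X.flipP (shE g O) (Sys.actC g f) (g * z) n (g * v) p y =
      X.flipP O f z n v p y := by
  induction n with
  | zero =>
    intro v p y
    unfold Sys.flipP
    rw [actC_apply]
    exact ite_cg (mul_right_inj g) rfl rfl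
  | succ n ih =>
    intro v p y
    unfold Sys.flipP
    rw [actC_apply, X.nb_mul, ih]
    exact ite_cg (mul_right_inj g) rfl (ite_cg (by rw [shE_apply]) rfl rfl)

theorem flip_sh (O : Edges H S) (f : Cfg H S L) (v z : H) (p : S) (y : L) :
    X.flip (shE g O) (g * v) p y (Sys.actC g f) (g * z) = X.flip O v p y f z := by
  unfold Sys.flip
  rw [X.dist_mul, flipP_sh, actC_apply]

theorem armP_sh (O : Edges H S) (f : Cfg H S L) (z u : H) (t : S) (y : L) :
    X.armP (shE g O) (Sys.actC g f) (g * z) (g * u) t y = X.armP O f z u t y := by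
  unfold Sys.armP
  rw [X.nb_mul, X.dist_mul, flipP_sh]
  exact ite_cg (by rw [shE_apply]) rfl rfl

theorem armOk_sh (O : Edges H S) (M : ℕ) (f : Cfg H S L) (u : H) (t : S) (y : L) :
    X.ArmOk (shE g O) M (Sys.actC g f) (g * u) t y = X.ArmOk O M f u t y := by
  unfold Sys.ArmOk
  rw [shE_apply, X.nb_mul, long_sh]

theorem triP_sh (O : Edges H S) (f : Cfg H S L) (z : H) (m : ℕ) :
    ∀ (v : H) (p : S) (y k : L), X.triP (shE g O) (Sys.actC g f) (g * z) m (g * v) p y k =
      X.triP O f z m v p y k := by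
  induction m with
  | zero =>
    intro v p y k
    unfold Sys.triP
    rw [actC_apply, armP_sh, armP_sh]
    exact ite_cg (mul_right_inj g) rfl rfl
  | succ m ih =>
    intro v p y k
    unfold Sys.triP
    rw [actC_apply, X.nb_mul, ih]
    exact ite_cg (mul_right_inj g) rfl rfl

theorem TR_sh (O : Edges H S) (m : ℕ) (v z : H) (p : S) (y k : L) (f : Cfg H S L) :
    X.TR (shE g O) m (g * v) p y k (Sys.actC g f) (g * z) = X.TR O m v p y k f z := by
  unfold Sys.TR
  rw [triP_sh, actC_apply]

theorem TR_sh' (O : Edges H S) (m : ℕ) (v : H) (p : S) (y k : L) (f : Cfg H S L) :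
    X.TR (shE g O) m (g * v) p y k (Sys.actC g f) = Sys.actC g (X.TR O m v p y k f) := by
  funext z
  obtain ⟨z', rfl⟩ : ∃ z', z = g * z' := ⟨g⁻¹ * z, (mul_inv_cancel_left g z).symm⟩
  rw [TR_sh, actC_apply]

theorem av_sh (O : Edges H S) (M : ℕ) (f : Cfg H S L) (m : ℕ) :
    ∀ (v : H) (p : S) (y k : L), X.Av (shE g O) M (Sys.actC g f) m (g * v) p y k =
      X.Av O M f m v p y k := by
  induction m with
  | zero =>
    intro v p y k
    unfold Sys.Av
    rw [actC_apply, armOk_sh, armOk_sh]
  | succ m ih =>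
    intro v p y k
    unfold Sys.Av
    rw [actC_apply, shE_apply, X.nb_mul, ih]

theorem AS_sh [Fintype L] (P : Par) (O : Edges H S) (f : Cfg H S L) (v : H) (p : S) (y : L) :
    X.AS P (shE g O) (Sys.actC g f) (g * v) p y = X.AS P O f v p y := by
  unfold Sys.AS
  ext i
  simp only [Finset.mem_filter, av_sh]

theorem cheap_sh [Fintype L] (P : Par) (O : Edges H S) (f : Cfg H S L) (v : H) (s : S) (u : ℕ)
    (i : Fin P.J × L) :
    X.Cheap P (shE g O) (g * v) s u (Sys.actC g f) i = X.Cheap P O v s u f i := by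
  unfold Sys.Cheap Sys.TRi
  rw [X.nb_mul, actC_apply, actC_apply, TR_sh', AS_sh, AS_sh]

end

/-- The update is equivariant. -/
theorem eqm : D_EQM := by
  intro H S L _ _ X P g O v s u f
  funext z
  obtain ⟨z', rfl⟩ : ∃ z', z = g * z' := ⟨g⁻¹ * z, (mul_inv_cancel_left g z).symm⟩
  rw [actC_apply]
  have hC : X.Cheap P (shE g O) (g * v) s u (Sys.actC g f) = X.Cheap P O v s u f := by
    funext i
    exact cheap_sh X g P O f v s u i
  unfold Sys.Upd
  rw [X.nb_mul, actC_apply, actC_apply]
  by_cases c1 : X.tau (f (X.nb v s) (X.bar s)) = f v s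
  · rw [if_pos c1, if_pos c1]
    exact actC_apply g f z'
  rw [if_neg c1, if_neg c1]
  by_cases c2 : ∃ i, X.Cheap P O v s u f i
  · have c2' : ∃ i, X.Cheap P (shE g O) (g * v) s u (Sys.actC g f) i := by rw [hC]; exact c2
    rw [dif_pos c2, dif_pos c2', choose_cg hC c2' c2]
    exact TR_sh X g O _ v z' s _ _ f
  · have c2' : ¬ ∃ i, X.Cheap P (shE g O) (g * v) s u (Sys.actC g f) i := by rw [hC]; exact c2
    rw [dif_neg c2, dif_neg c2']
    exact flip_sh X g O f _ z' _ _

end Pool.Agent.Helper16.OE
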