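import Pool.Agent.Helper78.OE.GoalsC2

/-!
Project OE (MP_fc0446_an), packet SEC1: the second vertex of the run.
-/

open MeasureTheory Pool.Agent.Helper73.OE Pool.Agent.Helper78.OE
open scoped ENNReal

namespace Pool.Agent.Helper16.OE

variable {H S L : Type} [Group H] (X : Sys H S L) [Fintype S] [Fintype L]

theorem meas_arm' (hM : MEAS X) (hL : LOCB X) (ε : ℝ) (M : ℕ) (v : H) (p : S) (κ : L) :
    Measurable fun w : St H S L =>
      ind (X.ArmOk (Om X ε w) M w.1 v ((w.1 v).symm κ) (w.1 v p)) := by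
  refine meas_ind_of X hM ε (F := fun O f => X.ArmOk O M f v ((f v).symm κ) (f v p)) (v := v)
    (r := M + 1) ?_
  intro O O' f f' h
  have h0 : v ∈ X.ball v (M + 1) := by rw [X.mem_ball, X.dist_self]; exact Nat.zero_le _
  have hv : f v = f' v := h.1 v h0
  show X.ArmOk O M f v ((f v).symm κ) (f v p) ↔ X.ArmOk O' M f' v ((f' v).symm κ) (f' v p)
  rw [← hv]
  generalize (f v).symm κ = t
  generalize f v p = y
  unfold Sys.ArmOk
  have h1 : X.nb v t ∈ X.ball v (M + 1) := by rw [X.mem_ball, X.dist_nb_self]; omega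
  rw [h.2 v t h0 h1]
  refine imp_congr_right fun _ => not_congr ?_
  refine (hL O O' f f' (X.nb v t) M (h.mono X ?_) (X.bar t) (X.tau y) y).1
  intro z hz
  rw [X.mem_ball] at hz ⊢
  rw [X.dist_comm] at hz ⊢
  have := X.dist_le_nb z v t
  omega

theorem meas_NA (hM : MEAS X) (hL : LOCB X) (ε : ℝ) (M m : ℕ) (v : H) (p : S) (y : L) :
    Measurable fun w : St H S L => NA X M ε m v p y w := by
  unfold NA
  exact Finset.measurable_sum _ fun k _ => meas_av X hM hL ε M m v p y k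

omit [Fintype S] in
theorem NA_succ (M : ℕ) (ε : ℝ) (m : ℕ) (v : H) (p : S) (y : L) (w : St H S L) :
    NA X M ε (m + 1) v p y w = ind (Om X ε w v ((w.1 v).symm y)) *
      NA X M ε m (X.nb v ((w.1 v).symm y)) (X.bar ((w.1 v).symm y)) (X.tau (w.1 v p)) w := by
  unfold NA
  rw [Finset.mul_sum]
  refine Finset.sum_congr rfl fun k _ => ?_
  rw [← ind_and]
  rfl

/-- The second vertex of the run. -/
theorem sec1 {ε : ℝ} {μ : Measure (St H S L)} (C : Ctx X ε μ) (h : ARM X ε μ)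
    (hA : AV0 X ε μ) : SEC1 X ε μ := by
  intro M M' d v p y κ G hG hκy hGκ
  refine le_of_split μ v ?_ hG.meas _ ?_
  · exact hG.meas.mul ((meas_arm' X C.meas C.locb ε M' v p κ).mul
      (meas_NA X C.meas C.locb ε M (d + 1) v p y))
  intro σ
  by_cases h1 : σ p = y
  · have e1 : ∀ w : St H S L, G w * ind (w.1 v = σ) = 0 := by
      intro w
      by_cases hw : w.1 v = σ
      · rw [hG.van w (by rw [hw]; exact h1), zero_mul]
      · rw [ind_false hw, mul_zero]
    have e2 : ∀ w : St H S L,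
        G w * (ind (X.ArmOk (Om X ε w) M' w.1 v ((w.1 v).symm κ) (w.1 v p)) *
          NA X M ε (d + 1) v p y w) * ind (w.1 v = σ) = 0 := by
      intro w
      rw [mul_right_comm, e1, zero_mul]
    rw [lintegral_congr e2, lintegral_zero]
    exact zero_le
  by_cases h2 : σ p = κ
  · have e1 : ∀ w : St H S L, G w * ind (w.1 v = σ) = 0 := by
      intro w
      by_cases hw : w.1 v = σ
      · rw [hGκ w (by rw [hw]; exact h2), zero_mul]
      · rw [ind_false hw, mul_zero]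
    have e2 : ∀ w : St H S L,
        G w * (ind (X.ArmOk (Om X ε w) M' w.1 v ((w.1 v).symm κ) (w.1 v p)) *
          NA X M ε (d + 1) v p y w) * ind (w.1 v = σ) = 0 := by
      intro w
      rw [mul_right_comm, e1, zero_mul]
    rw [lintegral_congr e2, lintegral_zero]
    exact zero_le
  -- the directions
  obtain ⟨t₂, ht₂⟩ : ∃ t, t = σ.symm κ := ⟨_, rfl⟩
  obtain ⟨t₃, ht₃⟩ : ∃ t, t = σ.symm y := ⟨_, rfl⟩
  have s2 : σ t₂ = κ := by rw [ht₂, σ.apply_symm_apply]
  have s3 : σ t₃ = y := by rw [ht₃, σ.apply_symm_apply]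
  have n2 : t₂ ≠ p := by rintro rfl; exact h2 s2
  have n3 : t₃ ≠ p := by rintro rfl; exact h1 s3
  have n23 : t₃ ≠ t₂ := by
    rintro rfl
    exact hκy (s2.symm.trans s3)
  have T0 : Test X v p y (fun w => G w * ind (w.1 v = σ)) := Test.mul_eq X hG σ
  -- `K₁`
  let K₀ : St H S L → ℝ≥0∞ := fun w => G w * ind (w.1 v = σ)
  let K₁ : St H S L → ℝ≥0∞ := fun w => K₀ w * ind (X.ArmOk (Om X ε w) M' w.1 v t₂ (σ p))
  let K₂ : St H S L → ℝ≥0∞ := fun w => K₁ w * ind (Om X ε w v t₃)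
  have K0σ : ∀ w, w.1 v ≠ σ → K₀ w = 0 := by
    intro w hw
    show G w * ind (w.1 v = σ) = 0
    rw [ind_false hw, mul_zero]
  have van2 : ∀ w, w.1 v t₂ = σ p → K₀ w = 0 := by
    intro w hw
    apply K0σ
    intro h3
    rw [h3, s2] at hw
    exact h2 hw.symm
  have m1 : Measurable K₁ := T0.meas.mul (meas_arm X C.meas C.locb ε M' v t₂ (σ p))
  have d1 : X.DepOn (X.Sd v t₃) K₁ :=
    dep_arm X (X.Past_subset n23) ε M' (DepOn.mono X T0.dep (X.Past_subset n3)) van2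
  have l1 : ∀ w, K₁ w ≤ 1 := fun w => mul_le_one' (T0.le_one w) (ind_le_one _)
  have v1 : ∀ w, w.1 v t₃ = σ p → K₁ w = 0 := by
    intro w hw
    have : K₀ w = 0 := by
      apply K0σ
      intro h3
      rw [h3, s3] at hw
      exact h1 hw.symm
    show K₀ w * _ = 0
    rw [this, zero_mul]
  have T2 : Test X (X.nb v t₃) (X.bar t₃) (X.tau (σ p)) K₂ :=
    test_next X C.meas ε m1 d1 l1 v1
  have I2 := hA M d (X.nb v t₃) (X.bar t₃) (X.tau (σ p)) K₂ T2
  have I1 := C.strip v t₃ K₁ m1 d1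
  have I0 := h M' v t₂ (σ p) K₀ T0.meas (DepOn.mono X T0.dep (X.Past_subset n2)) T0.le_one van2
  have key : ∀ w : St H S L,
      G w * (ind (X.ArmOk (Om X ε w) M' w.1 v ((w.1 v).symm κ) (w.1 v p)) *
          NA X M ε (d + 1) v p y w) * ind (w.1 v = σ) =
        K₂ w * NA X M ε d (X.nb v t₃) (X.bar t₃) (X.tau (σ p)) w := by
    intro w
    by_cases hw : w.1 v = σ
    · rw [NA_succ, hw, ← ht₂, ← ht₃]
      show _ = G w * ind (w.1 v = σ) * ind (X.ArmOk (Om X ε w) M' w.1 v t₂ (σ p)) *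
        ind (Om X ε w v t₃) * _
      rw [hw]
      ring
    · rw [ind_false hw, mul_zero]
      show _ = K₀ w * ind (X.ArmOk (Om X ε w) M' w.1 v t₂ (σ p)) * ind (Om X ε w v t₃) * _
      rw [K0σ w hw, zero_mul, zero_mul, zero_mul]
  rw [lintegral_congr key, I2]
  have I1' : ∫⁻ w, K₂ w ∂μ = sg ε * ∫⁻ w, K₁ w ∂μ := I1
  have I0' : ∫⁻ w, K₁ w ∂μ = pE M' ε * ∫⁻ w, K₀ w ∂μ := I0
  rw [I1', I0']
  apply le_of_eq
  show _ = _ * ∫⁻ w, K₀ w ∂μ
  ring

end Pool.Agent.Helper16.OE
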