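import Pool.Agent.Helper75.OE.GoalsA2

/-!
Project OE (MP_fc0446_an), packet UPL: locality of the update in a volume which contains all open
edges and the updated edge.
-/

namespace Pool.Agent.Helper16.OE

open Pool.Agent.Helper73.OE Pool.Agent.Helper75.OE

theorem upl_choose {α : Type*} {p q : α → Prop} (h : p = q) (hp : ∃ i, p i) (hq : ∃ i, q i) :
    hp.choose = hq.choose := by
  subst h
  rfl

theorem upl_pick {ι : Type} (cap : ℕ) (A : Finset ι) (u : ℕ) (j : ι)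
    (h : pick cap A u = some j) : j ∈ A := by
  unfold pick at h
  split_ifs at h with h1
  have h2 := Option.some.inj h
  rw [← h2]
  exact (A.equivFin.symm ⟨u, h1.2⟩).2

section

variable {H S L : Type} [Group H] {X : Sys H S L} {Λ : Set H} {O : Edges H S} {f f' : Cfg H S L}

theorem upl_long (hO : ∀ v s, O v s → v ∈ Λ ∧ X.nb v s ∈ Λ) (hf : ∀ z ∈ Λ, f z = f' z) (r : ℕ) :
    ∀ (v : H) (p : S) (y : L), v ∈ Λ → (X.Long O f r v p y ↔ X.Long O f' r v p y) := by
  induction r with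
  | zero => intro v p y _; exact Iff.rfl
  | succ r ih =>
    intro v p y hv
    unfold Sys.Long
    rw [← hf v hv]
    exact and_congr_right fun ho => ih _ _ _ (hO _ _ ho).2

theorem upl_flipP (hO : ∀ v s, O v s → v ∈ Λ ∧ X.nb v s ∈ Λ) (hf : ∀ z ∈ Λ, f z = f' z)
    (z : H) (n : ℕ) : ∀ (v : H) (p : S) (y : L), v ∈ Λ →
      X.flipP O f z n v p y = X.flipP O f' z n v p y ∧
        (z ∉ Λ → X.flipP O f z n v p y = 1) := by
  induction n with
  | zero =>
    intro v p y hv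
    unfold Sys.flipP
    rw [← hf v hv]
    refine ⟨rfl, fun hz => if_neg ?_⟩
    rintro rfl
    exact hz hv
  | succ n ih =>
    intro v p y hv
    unfold Sys.flipP
    rw [← hf v hv]
    by_cases h1 : z = v
    · rw [if_pos h1, if_pos h1]
      exact ⟨rfl, fun hz => absurd (h1 ▸ hv) hz⟩
    rw [if_neg h1, if_neg h1]
    by_cases h2 : O v ((f v).symm y)
    · rw [if_pos h2, if_pos h2]
      exact ih _ _ _ (hO _ _ h2).2
    · rw [if_neg h2, if_neg h2]
      exact ⟨rfl, fun _ => rfl⟩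

theorem upl_armP (hO : ∀ v s, O v s → v ∈ Λ ∧ X.nb v s ∈ Λ) (hf : ∀ z ∈ Λ, f z = f' z)
    (z u : H) (t : S) (y : L) :
    X.armP O f z u t y = X.armP O f' z u t y ∧ (z ∉ Λ → X.armP O f z u t y = 1) := by
  unfold Sys.armP
  by_cases h2 : O u t
  · rw [if_pos h2, if_pos h2]
    exact upl_flipP hO hf z _ _ _ _ (hO _ _ h2).2
  · rw [if_neg h2, if_neg h2]
    exact ⟨rfl, fun _ => rfl⟩

theorem upl_armOk (hO : ∀ v s, O v s → v ∈ Λ ∧ X.nb v s ∈ Λ) (hf : ∀ z ∈ Λ, f z = f' z)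
    (M : ℕ) (u : H) (t : S) (y : L) : X.ArmOk O M f u t y ↔ X.ArmOk O M f' u t y := by
  unfold Sys.ArmOk
  exact imp_congr_right fun ho => not_congr (upl_long hO hf M _ _ _ (hO _ _ ho).2)

theorem upl_av (hO : ∀ v s, O v s → v ∈ Λ ∧ X.nb v s ∈ Λ) (hf : ∀ z ∈ Λ, f z = f' z)
    (M m : ℕ) : ∀ (v : H) (p : S) (y k : L), v ∈ Λ →
      (X.Av O M f m v p y k ↔ X.Av O M f' m v p y k) := by
  induction m with
  | zero =>
    intro v p y k hv
    unfold Sys.Av
    rw [← hf v hv, upl_armOk hO hf, upl_armOk hO hf]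
  | succ m ih =>
    intro v p y k hv
    unfold Sys.Av
    rw [← hf v hv]
    exact and_congr_right fun ho => ih _ _ _ _ (hO _ _ ho).2

theorem upl_triP (hO : ∀ v s, O v s → v ∈ Λ ∧ X.nb v s ∈ Λ) (hf : ∀ z ∈ Λ, f z = f' z)
    (M : ℕ) (z : H) (m : ℕ) : ∀ (v : H) (p : S) (y k : L), v ∈ Λ → X.Av O M f m v p y k →
      X.triP O f z m v p y k = X.triP O f' z m v p y k ∧
        (z ∉ Λ → X.triP O f z m v p y k = 1) := by
  induction m with
  | zero =>
    intro v p y k hv _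
    unfold Sys.triP
    rw [← hf v hv]
    by_cases h1 : z = v
    · rw [if_pos h1, if_pos h1]
      exact ⟨rfl, fun hz => absurd (h1 ▸ hv) hz⟩
    rw [if_neg h1, if_neg h1]
    obtain ⟨a1, a2⟩ := upl_armP hO hf z v ((f v).symm y) k
    obtain ⟨b1, b2⟩ := upl_armP hO hf z v ((f v).symm k) (f v p)
    rw [← a1, ← b1]
    refine ⟨rfl, fun hz => ?_⟩
    rw [a2 hz, b2 hz]
    rfl
  | succ m ih =>
    intro v p y k hv hav
    unfold Sys.triP
    rw [← hf v hv]
    by_cases h1 : z = v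
    · rw [if_pos h1, if_pos h1]
      exact ⟨rfl, fun hz => absurd (h1 ▸ hv) hz⟩
    rw [if_neg h1, if_neg h1]
    exact ih _ _ _ _ (hO _ _ hav.1).2 hav.2

theorem upl_AS [Fintype L] (P : Par) (hO : ∀ v s, O v s → v ∈ Λ ∧ X.nb v s ∈ Λ)
    (hf : ∀ z ∈ Λ, f z = f' z) (v : H) (p : S) (y : L) (hv : v ∈ Λ) :
    X.AS P O f v p y = X.AS P O f' v p y := by
  unfold Sys.AS
  ext i
  simp only [Finset.mem_filter, upl_av hO hf P.M _ v p y _ hv]

theorem upl_mem_AS [Fintype L] {P : Par} {v : H} {p : S} {y : L} {i : Fin P.J × L}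
    (h : i ∈ X.AS P O f v p y) : X.Av O P.M f (2 * (i.1 : ℕ) + 1) v p y i.2 := by
  classical
  exact (Finset.mem_filter.1 h).2

theorem upl_TRi [Fintype L] {P : Par} (hO : ∀ v s, O v s → v ∈ Λ ∧ X.nb v s ∈ Λ)
    (hf : ∀ z ∈ Λ, f z = f' z) {v : H} {p : S} {y : L} (hv : v ∈ Λ) {i : Fin P.J × L}
    (h : i ∈ X.AS P O f v p y) :
    (∀ z ∈ Λ, X.TRi P O i v p y f z = X.TRi P O i v p y f' z) ∧
      ∀ z, z ∉ Λ → X.TRi P O i v p y f z = f z := by
  unfold Sys.TRi Sys.TR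
  have key := fun z => upl_triP hO hf P.M z (2 * (i.1 : ℕ) + 1) v p y i.2 hv (upl_mem_AS h)
  refine ⟨fun z hz => ?_, fun z hz => ?_⟩
  · rw [(key z).1, hf z hz]
  · rw [(key z).2 hz]
    rfl

theorem upl_cheap [Fintype L] {P : Par}
    (hO : ∀ v s, O v s → v ∈ Λ ∧ X.nb v s ∈ Λ) (hf : ∀ z ∈ Λ, f z = f' z) {v : H} {s : S} {u : ℕ}
    (hv : v ∈ Λ) (hs : X.nb v s ∈ Λ) (i : Fin P.J × L) :
    X.Cheap P O v s u f i ↔ X.Cheap P O v s u f' i := by
  unfold Sys.Cheap
  rw [← hf v hv, ← hf _ hs, ← upl_AS P hO hf v s _ hv]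
  refine and_congr_right fun h => ?_
  have hi := upl_pick P.cap _ u i h
  have h2 := (upl_TRi hO hf hv hi).1
  rw [upl_AS P hO h2 v s _ hv]

end

/-- Locality of the update. -/
theorem upl : A_UPL := by
  intro H S L _ _ X P Λ O hO v s hv hs u f f' hf
  have hC : X.Cheap P O v s u f = X.Cheap P O v s u f' := by
    funext i
    exact propext (upl_cheap hO hf hv hs i)
  unfold Sys.Upd
  rw [← hf v hv, ← hf _ hs]
  by_cases c1 : X.tau (f (X.nb v s) (X.bar s)) = f v s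
  · simp only [if_pos c1]
    exact ⟨hf, fun z _ => trivial⟩
  simp only [if_neg c1]
  by_cases c2 : ∃ i, X.Cheap P O v s u f i
  · have c2' : ∃ i, X.Cheap P O v s u f' i := by rw [← hC]; exact c2
    rw [dif_pos c2, dif_pos c2', ← upl_choose hC c2 c2']
    have hi := upl_pick P.cap _ u c2.choose c2.choose_spec.1
    exact upl_TRi hO hf hv hi
  · have c2' : ¬ ∃ i, X.Cheap P O v s u f' i := by rw [← hC]; exact c2
    rw [dif_neg c2, dif_neg c2']
    unfold Sys.flip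
    have key := fun z => upl_flipP hO hf z (X.dist (X.nb v s) z) (X.nb v s) (X.bar s)
      (X.tau (f v s)) hs
    refine ⟨fun z hz => ?_, fun z hz => ?_⟩
    · rw [(key z).1, hf z hz]
    · rw [(key z).2 hz]
      rfl

end Pool.Agent.Helper16.OE
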