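import Pool.Agent.Helper75.OE.GoalsA
import Pool.Agent.Helper73.OE.Iface

/-!
Project OE (MP_fc0446_an), packet UPM: the update matches the edge and keeps the others matched.
-/

namespace Pool.Agent.Helper16.OE

open Pool.Agent.Helper73.OE Pool.Agent.Helper73.OE.Sys Pool.Agent.Helper75.OE

section

variable {H S L : Type} [Group H] (X : Sys H S L)

/-- A configuration which is matched on both sides of the edge and at the edge is matched for the
enlarged set of edges. -/
theorem MA_addE {O : Edges H S} {v : H} {s : S} {g : Cfg H S L} (hO : X.Sym O) (hvs : ¬ O v s)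
    (h1 : g (X.nb v s) (X.bar s) = X.tau (g v s)) (h2 : X.MA O (X.Sd v s) g)
    (h3 : X.MA O (X.Sd (X.nb v s) (X.bar s)) g) : X.MA (X.addE O (v, s)) Set.univ g := by
  intro z r _ _ hzr
  rcases hzr with h | h | h
  · by_cases hz : z ∈ X.Sd v s
    · by_cases hz' : X.nb z r ∈ X.Sd v s
      · exact h2 z r hz hz' h
      · obtain ⟨rfl, rfl⟩ := X.Sd_edge hz hz'
        exact absurd h hvs
    · rw [X.notMem_Sd] at hz
      by_cases hz' : X.nb z r ∈ X.Sd (X.nb v s) (X.bar s)
      · exact h3 z r hz hz' h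
      · obtain ⟨h4, h5⟩ := X.Sd_edge hz hz'
        rw [h4, h5, ← hO v s] at h
        exact absurd h hvs
  · obtain ⟨rfl, rfl⟩ := Prod.mk.inj h
    exact h1
  · have h' : (z, r) = (X.nb v s, X.bar s) := h
    obtain ⟨rfl, rfl⟩ := Prod.mk.inj h'
    unfold Mt
    rw [X.nb_bar, X.bar_bar, h1, X.tau_tau]

theorem MA_congr {O : Edges H S} {A : Set H} {f g : Cfg H S L} (h : ∀ z ∈ A, g z = f z)
    (hf : X.MA O A f) : X.MA O A g := by
  intro z r hz hzr hO
  have := hf z r hz hzr hO
  unfold Mt at this ⊢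
  rw [h z hz, h _ hzr]
  exact this

theorem MA_mono {O : Edges H S} {f : Cfg H S L} (A : Set H) (hf : X.MA O Set.univ f) :
    X.MA O A f :=
  fun z r _ _ hO => hf z r trivial trivial hO

end

/-- The update matches the edge and keeps the others matched. -/
theorem upm (h1 : A_FREC) (h2 : A_FLM) (h3 : A_TLOC) (h4 : A_TRM) (h5 : A_PICK) : A_UPM := by
  intro H S L _ _ X P O v s u f hO hvs hf
  unfold Upd
  split_ifs with c1 c2
  · refine MA_addE X hO hvs ?_ (MA_mono X _ hf) (MA_mono X _ hf)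
    rw [← c1, X.tau_tau]
  · have hy : X.tau (f (X.nb v s) (X.bar s)) ≠ f v s := c1
    have hi := c2.choose_spec
    generalize c2.choose = i at hi ⊢
    have hA := ((h5 _ P.cap _).1 u i hi.1).1
    have hav : X.Av O P.M f (2 * (i.1 : ℕ) + 1) v s (X.tau (f (X.nb v s) (X.bar s))) i.2 := by
      classical
      exact (Finset.mem_filter.1 hA).2
    obtain ⟨t1, t2⟩ := h4 H S L X O P.M (2 * (i.1 : ℕ) + 1) v s _ i.2 f hO hy
      (MA_mono X _ hf) hav
    have t3 := ((h3 H S L X O O P.M (2 * (i.1 : ℕ) + 1) v s _ i.2 f f hy (MA_mono X _ hf)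
      (fun _ _ => rfl) (fun _ _ _ _ => Iff.rfl)).2 hav).1
    unfold TRi
    refine MA_addE X hO hvs ?_ t2 ?_
    · rw [t1, X.tau_tau, t3 _ (X.nb_notMem_Sd v s)]
    · refine MA_congr X ?_ (MA_mono X _ hf)
      intro z hz
      exact t3 z (fun h => (X.notMem_Sd.2 hz) h)
  · have hy : X.tau (f v s) ≠ f (X.nb v s) (X.bar s) := by
      intro h
      apply c1
      rw [← h, X.tau_tau]
    obtain ⟨r1, r2, -, -⟩ := h1 H S L X O (X.nb v s) (X.bar s) _ f hy (MA_mono X _ hf)
    have r3 := h2 H S L X O (X.nb v s) (X.bar s) _ f hO hy (MA_mono X _ hf)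
    refine MA_addE X hO hvs ?_ ?_ r3
    · rw [r1, r2 v (X.notMem_Sd_bar v s)]
      simp
    · refine MA_congr X ?_ (MA_mono X _ hf)
      intro z hz
      exact r2 z (fun h => (X.notMem_Sd.2 h) hz)

/-- The same for the interface. -/
theorem updMatched (h1 : A_FREC) (h2 : A_FLM) (h3 : A_TLOC) (h4 : A_TRM) (h5 : A_PICK) :
    UpdMatched_stmt := by
  intro H S L _ _ X P O hO v s hvs u f hf
  exact upm h1 h2 h3 h4 h5 H S L X P O v s u f hO hvs hf

end Pool.Agent.Helper16.OE
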